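import Pool.Agent.H.MP_7a5b4a_gt.E
import Pool.Agent.H.MP_7a5b4a_gt.F

set_option autoImplicit false

namespace Pool.Agent.Results.MP_7a5b4a_gt.Yes

/-- `d` is a continuous metric on the nonempty open convex set `M` of the plane, and the trace on
`M` of every straight line meeting `M` is a geodesic line (an isometric image of `ℝ`). -/
structure AffPlane (M : Set (ℝ × ℝ)) (d : ℝ × ℝ → ℝ × ℝ → ℝ) : Prop where
  isOpen : IsOpen M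
  convex : Convex ℝ M
  nonempty : M.Nonempty
  symm : ∀ x ∈ M, ∀ y ∈ M, d x y = d y x
  sep : ∀ x ∈ M, ∀ y ∈ M, (d x y = 0 ↔ x = y)
  tri : ∀ x ∈ M, ∀ y ∈ M, ∀ z ∈ M, d x z ≤ d x y + d y z
  cont : ContinuousOn (fun p : (ℝ × ℝ) × (ℝ × ℝ) => d p.1 p.2) (M ×ˢ M)
  geo : ∀ p ∈ M, ∀ v : ℝ × ℝ, v ≠ 0 → ∃ f : ℝ → ℝ × ℝ, (∀ s t, d (f s) (f t) = |s - t|) ∧
    Set.range f = {x | x ∈ M ∧ ∃ t : ℝ, x = p + t • v}

/-- the circle identity `(*)` with size function `σ`, for every centre `m` and radius `r > 0` -/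
def CircleId (σ : ℝ → ℝ) (M : Set (ℝ × ℝ)) (d : ℝ × ℝ → ℝ × ℝ → ℝ) : Prop :=
  ∀ m ∈ M, ∀ r : ℝ, 0 < r → ∀ A ∈ M, ∀ B ∈ M, ∀ P ∈ M, m ∈ openSegment ℝ A B → d m A = r →
    d m B = r → d m P = r → P ∉ affineSpan ℝ {A, B} →
    σ (d A P / 2) ^ 2 + σ (d B P / 2) ^ 2 = σ r ^ 2

/-- the real projective plane -/
abbrev RP2 := Projectivization ℝ (Fin 3 → ℝ)

/-- `d` is a continuous metric on the projective plane and every projective line is a closed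
geodesic of length `π`. -/
structure EllPlane (d : RP2 → RP2 → ℝ) : Prop where
  symm : ∀ x y, d x y = d y x
  sep : ∀ x y, (d x y = 0 ↔ x = y)
  tri : ∀ x y z, d x z ≤ d x y + d y z
  cont : Continuous fun p : {v : Fin 3 → ℝ // v ≠ 0} × {v : Fin 3 → ℝ // v ≠ 0} =>
    d (Projectivization.mk ℝ p.1.1 p.1.2) (Projectivization.mk ℝ p.2.1 p.2.2)
  geo : ∀ W : Submodule ℝ (Fin 3 → ℝ), Module.finrank ℝ W = 2 →
    ∃ f : AddCircle Real.pi → RP2, (∀ a b, d (f a) (f b) = dist a b) ∧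
      Set.range f = {p | p.submodule ≤ W}

/-- the circle identity `(*)` in elliptic type, for all radii `0 < r < π / 2` -/
def EllCircleId (d : RP2 → RP2 → ℝ) : Prop :=
  ∀ W : Submodule ℝ (Fin 3 → ℝ), Module.finrank ℝ W = 2 → ∀ m A B P : RP2, ∀ r : ℝ, 0 < r →
    r < Real.pi / 2 → m.submodule ≤ W → A.submodule ≤ W → B.submodule ≤ W → A ≠ B → d m A = r →
    d m B = r → d m P = r → ¬ P.submodule ≤ W →
    Real.sin (d A P / 2) ^ 2 + Real.sin (d B P / 2) ^ 2 = Real.sin r ^ 2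

theorem result :
    (∀ d, AffPlane Set.univ d → CircleId id Set.univ d →
      ∃ T : (ℝ × ℝ) ≃ₗ[ℝ] (ℝ × ℝ), ∀ x y, d x y =
        Real.sqrt ((T (x - y)).1 ^ 2 + (T (x - y)).2 ^ 2)) ∧
    (∀ M d, AffPlane M d → CircleId Real.sinh M d →
      ∃ T : ((ℝ × ℝ) × ℝ) ≃ₗ[ℝ] ((ℝ × ℝ) × ℝ), (∀ x ∈ M, 0 < (T (x, 1)).2) ∧
        ∀ φ : ℝ × ℝ → ℝ × ℝ, (∀ x, φ x = (T (x, 1)).2⁻¹ • (T (x, 1)).1) →
        Set.BijOn φ M {w | w.1 ^ 2 + w.2 ^ 2 < 1} ∧ ∀ x ∈ M, ∀ y ∈ M, Real.cosh (d x y) =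
          (1 - (φ x).1 * (φ y).1 - (φ x).2 * (φ y).2) /
            Real.sqrt ((1 - ((φ x).1 ^ 2 + (φ x).2 ^ 2)) * (1 - ((φ y).1 ^ 2 + (φ y).2 ^ 2)))) ∧
    (∀ d, EllPlane d → ¬ EllCircleId d) :=
  ⟨fun _ h hT => Pool.Agent.H.MP_7a5b4a_gt.euclid
      ⟨h.isOpen, h.convex, h.nonempty, h.symm, h.sep, h.tri, h.cont, h.geo⟩ hT,
    fun _ _ h hT => Pool.Agent.H.MP_7a5b4a_gt.klein
      ⟨h.isOpen, h.convex, h.nonempty, h.symm, h.sep, h.tri, h.cont, h.geo⟩ hT,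
    fun d h hT => Pool.Agent.H.MP_7a5b4a_gt.elliptic d h.symm (fun x => (h.sep x x).2 rfl) h.tri
      h.cont h.geo hT⟩

end Pool.Agent.Results.MP_7a5b4a_gt.Yes
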